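import Pool.Agent.Helper17.CL.ListC

/-!
# Project CL, module A: absoluteness of wellfounded trees
-/

set_option autoImplicit false

namespace Pool.Agent.Helper17.CL

open ZFSet

universe u₁ u₂ u₃

/-- The list of the values of `f` at `n - 1, …, 0` (in this order). -/
def rini {γ : Type u₁} (f : ℕ → γ) : ℕ → List γ
  | 0 => []
  | n + 1 => f n :: rini f n

/-- The nodes of rank at most `o` in the wellfounded part of `T`. -/
noncomputable def wfp {γ : Type u₁} (T : Set (List γ)) (o : Ordinal.{0}) : Set (List γ) :=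
  {s | s ∈ T ∧ ∀ c : γ, c :: s ∈ T → ∃ a : Set.Iio o, c :: s ∈ wfp T a}
termination_by o
decreasing_by exact a.2

theorem mem_wfp {γ : Type u₁} {T : Set (List γ)} {o : Ordinal.{0}} {s : List γ} :
    s ∈ wfp T o ↔ s ∈ T ∧ ∀ c : γ, c :: s ∈ T → ∃ a < o, c :: s ∈ wfp T a := by
  rw [wfp, Set.mem_ofPred_eq]
  refine and_congr_right fun _ => forall_congr' fun c => imp_congr_right fun _ => ?_
  constructor
  · rintro ⟨⟨a, ha⟩, h⟩
    exact ⟨a, ha, h⟩
  · rintro ⟨a, ha, h⟩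
    exact ⟨⟨a, ha⟩, h⟩

theorem not_mem_wfp {γ : Type u₁} {T : Set (List γ)} {f : ℕ → γ} (hf : ∀ n, rini f n ∈ T)
    (o : Ordinal.{0}) : ∀ n, rini f n ∉ wfp T o := by
  induction o using WellFoundedLT.induction with
  | ind o ih =>
    intro n hn
    obtain ⟨a, ha, h⟩ := (mem_wfp.1 hn).2 (f n) (hf (n + 1))
    exact ih a ha (n + 1) h

section

variable {M : Set ZFSet.{0}} (h : IsInner M)
variable {γ : Type} [Cod γ] [SmallCod γ]

include h

theorem am_wfp {T : Set (List γ)} (hT : code T ∈ M) :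
    Am M (fun q : Ordinal.{0} × List γ => q.2 ∈ wfp T q.1) := by
  have h1 : AmF M (fun q : ZFSet.{0} × Ordinal.{0} =>
      (fun (_ : ZFSet.{0}) (o : Ordinal.{0}) => code (wfp T o)) q.1 q.2) := by
    refine AmF.rec_ord h (α := ZFSet.{0}) (F := fun _ o => code (wfp T o)) (H := fun _ o g => ZFSet.sep (fun z => ∃ s : List γ, (s ∈ T ∧
      ∀ c : γ, c :: s ∈ T → ∃ a : Ordinal.{0}, a < o ∧ code (c :: s) ∈ app g (code a)) ∧
        z = code s) (SmallCod.all (List γ))) ?_ ?_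
    · refine AmF.sep h (g := fun _ : ZFSet.{0} × Ordinal.{0} × ZFSet.{0} =>
        SmallCod.all (List γ)) (R := fun q z => ∃ s : List γ, (s ∈ T ∧
        ∀ c : γ, c :: s ∈ T → ∃ a : Ordinal.{0}, a < q.2.1 ∧ code (c :: s) ∈ app q.2.2 (code a)) ∧
        z = code s) (AmF.const h _ (SmallCod.inM h)) ?_
      refine Am.exA h (R := fun (q : (ZFSet.{0} × Ordinal.{0} × ZFSet.{0}) × ZFSet.{0})
        (s : List γ) => (s ∈ T ∧ ∀ c : γ, c :: s ∈ T → ∃ a : Ordinal.{0}, a < q.1.2.1 ∧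
          code (c :: s) ∈ app q.1.2.2 (code a)) ∧ q.2 = code s) ?_
      refine Am.and h (Am.and h ?_ ?_) ?_
      · exact Am.mem_set h (AmF.snd h) (AmF.const h T hT)
      · refine Am.allA h (R := fun (q : ((ZFSet.{0} × Ordinal.{0} × ZFSet.{0}) × ZFSet.{0}) ×
          List γ) (c : γ) => c :: q.2 ∈ T → ∃ a : Ordinal.{0}, a < q.1.1.2.1 ∧
            code (c :: q.2) ∈ app q.1.1.2.2 (code a)) ?_
        refine Am.imp h ?_ ?_
        · exact Am.mem_set h (AmF.lcons h (AmF.snd h) ((AmF.snd h).comp h (AmF.fst h)))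
            (AmF.const h T hT)
        · refine Am.exA h (R := fun (q : (((ZFSet.{0} × Ordinal.{0} × ZFSet.{0}) × ZFSet.{0}) ×
            List γ) × γ) (a : Ordinal.{0}) => a < q.1.1.1.2.1 ∧
              code (q.2 :: q.1.2) ∈ app q.1.1.1.2.2 (code a)) ?_
          refine Am.and h (Am.ordLt h (AmF.snd h) ?_) (Am.mem h ?_ (AmF.app h ?_ ?_))
          · exact (AmF.fst h).comp h ((AmF.snd h).comp h ((AmF.fst h).comp h ((AmF.fst h).comp h
              ((AmF.fst h).comp h (AmF.fst h)))))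
          · exact (AmF.code h).comp h (AmF.lcons h ((AmF.snd h).comp h (AmF.fst h))
              ((AmF.snd h).comp h ((AmF.fst h).comp h (AmF.fst h))))
          · exact (AmF.snd h).comp h ((AmF.snd h).comp h ((AmF.fst h).comp h ((AmF.fst h).comp h
              ((AmF.fst h).comp h (AmF.fst h)))))
          · exact (AmF.code h).comp h (AmF.snd h)
      · exact Am.eq h ((AmF.snd h).comp h (AmF.fst h)) ((AmF.code h).comp h (AmF.snd h))
    · intro p o
      ext z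
      rw [mem_sep, code_setOf]
      constructor
      · rintro ⟨s, hs, rfl⟩
        refine ⟨code_mem_all s, s, ⟨(mem_wfp.1 hs).1, fun c hc => ?_⟩, rfl⟩
        obtain ⟨a, ha, h2⟩ := (mem_wfp.1 hs).2 c hc
        refine ⟨a, ha, ?_⟩
        rw [code_ord, app_gro ha, code_mem_code]
        exact h2
      · rintro ⟨_, s, ⟨hs, h2⟩, rfl⟩
        refine ⟨s, mem_wfp.2 ⟨hs, fun c hc => ?_⟩, rfl⟩
        obtain ⟨a, ha, h3⟩ := h2 c hc
        rw [code_ord, app_gro ha, code_mem_code] at h3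
        exact ⟨a, ha, h3⟩
  have h2 := h1.comp h (f := fun q : Ordinal.{0} × List γ => ((∅ : ZFSet.{0}), q.1))
    ((AmF.empty h).prod h (AmF.fst h))
  refine (Am.mem h ((AmF.code h).comp h (AmF.snd (α := Ordinal.{0}) (β := List γ) h)) h2).congr h
    fun q _ => ?_
  rw [code_mem_code]

/-- The least natural number with a given property. -/
theorem amF_least {α : Type u₁} [Cod α] {P : α → ℕ → Prop}
    (hP : Am M (fun q : α × ℕ => P q.1 q.2)) : AmF M (fun x => sInf {k | P x k}) := by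
  refine AmF.mk' (fun x _ => AbsCod.mem h _) ?_
  have h1 : Am M (fun q : α × ℕ => (P q.1 q.2 ∧ ∀ j : ℕ, j < q.2 → ¬ P q.1 j) ∨
      ((∀ j : ℕ, ¬ P q.1 j) ∧ q.2 = 0)) := by
    refine Am.or h (Am.and h hP ?_) (Am.and h ?_ ?_)
    · refine Am.allA h (R := fun (q : α × ℕ) (j : ℕ) => j < q.2 → ¬ P q.1 j) ?_
      refine Am.imp h (Am.natLt h (AmF.snd h) ((AmF.snd h).comp h (AmF.fst h))) (Am.not h ?_)
      exact hP.comp h (f := fun q : (α × ℕ) × ℕ => (q.1.1, q.2))
        (((AmF.fst h).comp h (AmF.fst h)).prod h (AmF.snd h))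
    · refine Am.allA h (R := fun (q : α × ℕ) (j : ℕ) => ¬ P q.1 j) (Am.not h ?_)
      exact hP.comp h (f := fun q : (α × ℕ) × ℕ => (q.1.1, q.2))
        (((AmF.fst h).comp h (AmF.fst h)).prod h (AmF.snd h))
    · exact Am.eq h (AmF.snd h) (AmF.const h 0 (AbsCod.mem h _))
  refine h1.congr h fun q _ => ?_
  obtain ⟨x, k⟩ := q
  dsimp only
  constructor
  · rintro rfl
    by_cases hne : ∃ j, P x j
    · exact Or.inl ⟨Nat.sInf_mem (s := {k | P x k}) hne, fun j hj hPj =>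
        absurd (Nat.sInf_le (s := {k | P x k}) hPj) (by omega)⟩
    · refine Or.inr ⟨fun j hj => hne ⟨j, hj⟩, ?_⟩
      have : {k | P x k} = ∅ := by
        ext j
        exact ⟨fun hj => hne ⟨j, hj⟩, fun hj => hj.elim⟩
      rw [this, Nat.sInf_empty]
  · rintro (⟨h2, h3⟩ | ⟨h2, rfl⟩)
    · refine le_antisymm (Nat.sInf_le (s := {k | P x k}) h2) ?_
      by_contra hlt
      exact h3 _ (by omega) (Nat.sInf_mem (s := {k | P x k}) ⟨k, h2⟩)
    · have : {k | P x k} = ∅ := by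
        ext j
        exact ⟨fun hj => h2 j hj, fun hj => hj.elim⟩
      rw [this, Nat.sInf_empty]

end

/-- The same for a real parameter space: `T` is a tree on `γ` for a small coded type `γ` whose
codes are in bijection with `ℕ` in all inner models. -/
theorem branch_abs' {M : Set ZFSet.{0}} (h : IsInner M) {γ : Type} [Cod γ] [SmallCod γ]
    {e : ℕ → γ} (he : AmF M e) (hsurj : Function.Surjective e) {T : Set (List γ)}
    (hT : code T ∈ M) {f : ℕ → γ} (hf : ∀ n, rini f n ∈ T) :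
    ∃ g : ℕ → γ, code g ∈ M ∧ ∀ n, rini g n ∈ T := by
  classical
  obtain ⟨S, hSdef⟩ : ∃ S : Set (List γ), S = {s | s ∈ T ∧ ∀ o : Ordinal.{0}, s ∉ wfp T o} :=
    ⟨_, rfl⟩
  have hSmem : ∀ s, s ∈ S ↔ s ∈ T ∧ ∀ o : Ordinal.{0}, s ∉ wfp T o := by
    intro s
    rw [hSdef, Set.mem_ofPred_eq]
  have hS : code S ∈ M := by
    have h1 : AmF M (fun _ : ZFSet.{0} => {s : List γ | s ∈ T ∧ ∀ o : Ordinal.{0},
        s ∉ wfp T o}) := by
      refine AmF.setOf h (R := fun (_ : ZFSet.{0}) (s : List γ) => s ∈ T ∧ ∀ o : Ordinal.{0},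
        s ∉ wfp T o) ?_
      refine Am.and h (Am.mem_set h (AmF.snd h) (AmF.const h T hT)) ?_
      refine Am.allA h (R := fun (q : ZFSet.{0} × List γ) (o : Ordinal.{0}) => q.2 ∉ wfp T o) ?_
      refine Am.not h ?_
      exact (am_wfp h hT).comp h (f := fun q : (ZFSet.{0} × List γ) × Ordinal.{0} =>
        (q.2, q.1.2)) ((AmF.snd h).prod h ((AmF.snd h).comp h (AmF.fst h)))
    rw [hSdef]
    exact h1.mem ∅ h.empty_mem
  have hnil : [] ∈ S := (hSmem _).2 ⟨hf 0, fun o => not_mem_wfp hf o 0⟩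
  have hstep : ∀ s ∈ S, ∃ k : ℕ, e k :: s ∈ S := by
    intro s hs
    by_contra hne
    have h1 : ∀ c : γ, ∃ o : Ordinal.{0}, c :: s ∈ T → c :: s ∈ wfp T o := by
      intro c
      by_cases hc : c :: s ∈ T
      · by_contra h2
        obtain ⟨k, rfl⟩ := hsurj c
        exact hne ⟨k, (hSmem _).2 ⟨hc, fun o ho => h2 ⟨o, fun _ => ho⟩⟩⟩
      · exact ⟨0, fun h3 => absurd h3 hc⟩
    choose o ho using h1
    refine ((hSmem _).1 hs).2 (⨆ c : γ, (o c + 1)) (mem_wfp.2 ⟨((hSmem _).1 hs).1, fun c hc => ?_⟩)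
    refine ⟨o c, ?_, ho c hc⟩
    exact lt_of_lt_of_le (Order.lt_add_one_iff.2 le_rfl)
      (Ordinal.le_iSup (fun c : γ => o c + 1) c)
  -- the leftmost branch
  obtain ⟨κ, hκ⟩ : ∃ κ : List γ → ℕ, κ = fun l => sInf {k : ℕ | e k :: l ∈ S} := ⟨_, rfl⟩
  have hκS : ∀ s ∈ S, e (κ s) :: s ∈ S := by
    intro s hs
    rw [hκ]
    exact Nat.sInf_mem (s := {k : ℕ | e k :: s ∈ S}) (hstep s hs)
  have hκA : AmF M κ := by
    rw [hκ]
    refine amF_least h (P := fun (l : List γ) (k : ℕ) => e k :: l ∈ S) ?_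
    exact Am.mem_set h (AmF.lcons h (he.comp h (AmF.snd h)) (AmF.fst h)) (AmF.const h S hS)
  obtain ⟨B, hB0, hBS⟩ : ∃ B : ℕ → List γ, B 0 = [] ∧ ∀ n, B (n + 1) = e (κ (B n)) :: B n :=
    ⟨fun n => Nat.rec [] (fun _ l => e (κ l) :: l) n, rfl, fun _ => rfl⟩
  have hBA : AmF M (fun q : ZFSet.{0} × ℕ => (fun (_ : ZFSet.{0}) (n : ℕ) => B n) q.1 q.2) := by
    refine AmF.rec_nat h (G := fun _ : ZFSet.{0} => ([] : List γ))
      (H := fun _ _ l => e (κ l) :: l) (AmF.nil h) ?_ (fun _ => hB0) (fun _ n => hBS n)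
    exact AmF.lcons h (he.comp h (hκA.comp h ((AmF.snd h).comp h (AmF.snd h))))
      ((AmF.snd h).comp h (AmF.snd h))
  have hgA : AmF M (fun q : ZFSet.{0} × ℕ =>
      (fun (_ : ZFSet.{0}) (n : ℕ) => e (κ (B n))) q.1 q.2) := he.comp h (hκA.comp h hBA)
  refine ⟨fun n => e (κ (B n)), (AmF.lam h (f := fun (_ : ZFSet.{0}) (n : ℕ) =>
    e (κ (B n))) hgA).mem ∅ h.empty_mem, ?_⟩
  have hBmem : ∀ n, B n ∈ S := by
    intro n
    induction n with
    | zero => rw [hB0]; exact hnil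
    | succ n ih => rw [hBS]; exact hκS _ ih
  have hBr : ∀ n, rini (fun n => e (κ (B n))) n = B n := by
    intro n
    induction n with
    | zero => rw [hB0]; rfl
    | succ n ih =>
      rw [hBS, rini, ih]
  intro n
  rw [hBr]
  exact ((hSmem _).1 (hBmem n)).1

/-- A tree on `ℕ` in `M` with a branch has a branch in `M`. -/
theorem branch_abs {M : Set ZFSet.{0}} (h : IsInner M) {T : Set (List ℕ)} (hT : code T ∈ M)
    {f : ℕ → ℕ} (hf : ∀ n, rini f n ∈ T) : ∃ g : ℕ → ℕ, code g ∈ M ∧ ∀ n, rini g n ∈ T :=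
  branch_abs' h (e := fun n : ℕ => n) (AmF.id h) (fun n => ⟨n, rfl⟩) hT hf

end Pool.Agent.Helper17.CL
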